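import Pool.Agent.Y873.HM.Low

/-!
The lower bound `c / (n (log n)^2)` for the critical density.
-/

set_option autoImplicit false

namespace Pool.Agent.Y873.HM

open Finset Classical Pool.Agent.Helper91.BP Filter Topology Pool.Agent.H500R3.Ham

theorem lower_sat' {d : ℕ} (hd : 3 ≤ d) :
    ∀ᶠ n : ℕ in atTop, 1 / (300 * d * ((d : ℝ) + 3) ^ 2) / (n * Real.log n ^ 2) ≤ 1 ∧
      0 < 1 / (300 * d * ((d : ℝ) + 3) ^ 2) / (n * Real.log n ^ 2) ∧
      Pr (1 / (300 * d * ((d : ℝ) + 3) ^ 2) / (n * Real.log n ^ 2))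
        (fun O : Finset (NonEdge n d) => Saturated O) < 1 / 2 := by
  have hd0 : (0 : ℝ) < d := by exact_mod_cast (by omega : 0 < d)
  have hd3 : (3 : ℝ) ≤ d := by exact_mod_cast hd
  set c : ℝ := 1 / (300 * d * ((d : ℝ) + 3) ^ 2) with hc
  have hc0 : 0 < c := by rw [hc]; positivity
  have hc1 : c ≤ 1 := by
    rw [hc, div_le_one (by positivity)]
    nlinarith
  set C1 : ℝ := 4 * d * (2 * ((d : ℝ) + 3)) ^ 2 * 3 with hC1
  set C3 : ℝ := 4 * d * (2 * ((d : ℝ) + 3)) ^ 4 * 4 ^ (2 * d) / c with hC3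
  have hC10 : 0 < C1 := by rw [hC1]; positivity
  have hC30 : 0 < C3 := by rw [hC3]; positivity
  have hlogn : Tendsto (fun n : ℕ => Real.log n) atTop atTop :=
    Real.tendsto_log_atTop.comp tendsto_natCast_atTop_atTop
  have hpl : ∀ j : ℕ, Tendsto (fun n : ℕ => Real.log n ^ j / n) atTop (𝓝 0) := by
    intro j
    have h1 := (Real.isLittleO_pow_log_id_atTop (n := j)).tendsto_div_nhds_zero
    exact h1.comp tendsto_natCast_atTop_atTop
  have L1 : ∀ᶠ n : ℕ in atTop, C1 * (Real.log n ^ 2 / n) < 1 / 8 := by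
    have h1 := (hpl 2).const_mul C1
    rw [mul_zero] at h1
    exact h1.eventually_lt_const (by norm_num)
  have L3 : ∀ᶠ n : ℕ in atTop, C3 * (Real.log n ^ 6 / n) < 1 / 8 := by
    have h1 := (hpl 6).const_mul C3
    rw [mul_zero] at h1
    exact h1.eventually_lt_const (by norm_num)
  have L4 : ∀ᶠ n : ℕ in atTop, Real.log n ^ 2 / n < 1 := (hpl 2).eventually_lt_const one_pos
  have L2 : ∀ᶠ n : ℕ in atTop, Real.exp (-(c / (10 * 4 ^ (2 * d)) * n)) < 1 / 8 := by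
    have h1 : Tendsto (fun n : ℕ => c / (10 * 4 ^ (2 * d)) * n) atTop atTop :=
      Tendsto.const_mul_atTop (by positivity) tendsto_natCast_atTop_atTop
    exact (Real.tendsto_exp_neg_atTop_nhds_zero.comp h1).eventually_lt_const (by norm_num)
  filter_upwards [L1, L2, L3, L4, eventually_ge_atTop 4, hlogn.eventually_ge_atTop 1] with n l1 l2 l3 l4 hn hx1
  have hn0 : (0 : ℝ) < n := by exact_mod_cast (by omega : 0 < n)
  have hn1 : (1 : ℝ) ≤ n := by exact_mod_cast (by omega : 1 ≤ n)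
  set x : ℝ := Real.log n with hx
  have hx0 : 0 < x := by linarith
  set p : ℝ := c / (n * x ^ 2) with hp
  have hp0 : 0 < p := by rw [hp]; positivity
  have hx2 : 1 ≤ x ^ 2 := one_le_pow₀ hx1
  have hp1 : p ≤ 1 := by
    rw [hp, div_le_one (by positivity)]
    nlinarith
  refine ⟨hp1, hp0, ?_⟩
  set K : ℕ := ⌈((d : ℝ) + 3) * x⌉₊ with hK
  have hKge : ((d : ℝ) + 3) * x ≤ K := Nat.le_ceil _
  have hKlt : (K : ℝ) < ((d : ℝ) + 3) * x + 1 := Nat.ceil_lt_add_one (by positivity)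
  have hK3R : (3 : ℝ) ≤ K := by nlinarith
  have hK3 : 3 ≤ K := by exact_mod_cast hK3R
  have hKle : (K : ℝ) ≤ 2 * ((d : ℝ) + 3) * x := by nlinarith
  have hK0 : (0 : ℝ) < K := by linarith
  set ρ : ℝ := 24 * d * (K : ℝ) ^ 2 * (n * p) with hρ
  have hnp : (n : ℝ) * p = c / x ^ 2 := by rw [hp]; field_simp
  have hρle : ρ ≤ 1 / 3 := by
    rw [hρ, hnp]
    have h1 : (K : ℝ) ^ 2 ≤ (2 * ((d : ℝ) + 3) * x) ^ 2 := pow_le_pow_left₀ hK0.le hKle 2
    calc 24 * d * (K : ℝ) ^ 2 * (c / x ^ 2)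
        ≤ 24 * d * (2 * ((d : ℝ) + 3) * x) ^ 2 * (c / x ^ 2) := by gcongr
      _ = 96 / 300 := by rw [hc]; field_simp; norm_num
      _ ≤ 1 / 3 := by norm_num
  have hρ0 : 0 ≤ ρ := by rw [hρ]; positivity
  set m : ℕ := n / 2 with hm
  have hm2 : 2 * m ≤ n := by omega
  have hm1 : 1 ≤ m := by omega
  have hm4 : (n : ℝ) / 4 ≤ m := by
    have : n ≤ 4 * m := by omega
    have : (n : ℝ) ≤ 4 * m := by exact_mod_cast this
    linarith
  have hmain := sat_prob' hm2 hm1 hd hK3 hp0 hp1 hρ (by linarith)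
  have hmpow : ((n : ℝ) / 4) ^ (2 * d) ≤ (m : ℝ) ^ (2 * d) := pow_le_pow_left₀ (by positivity) hm4 _
  rw [div_pow] at hmpow
  have hm0 : (0 : ℝ) < m := by exact_mod_cast hm1
  -- first term
  have hρK : ρ ^ (K - 1) ≤ 3 * (1 / (n : ℝ) ^ (d + 3)) := by
    have h1 : ρ ≤ Real.exp (-1) := by
      refine hρle.trans ?_
      rw [Real.exp_neg]
      have := Real.exp_one_lt_d9
      rw [div_le_iff₀ (by norm_num), ← div_eq_inv_mul, le_div_iff₀ (Real.exp_pos _)]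
      linarith
    have h2 : ρ ^ (K - 1) ≤ Real.exp (-1) ^ (K - 1) := pow_le_pow_left₀ hρ0 h1 _
    have h3 : Real.exp (-1) ^ (K - 1) = Real.exp (-((K : ℝ) - 1)) := by
      rw [← Real.exp_nat_mul]
      congr 1
      rw [Nat.cast_sub (by omega : 1 ≤ K)]
      push_cast; ring
    have h4 : Real.exp (-((K : ℝ) - 1)) ≤ Real.exp (1 - ((d : ℝ) + 3) * x) :=
      Real.exp_le_exp.2 (by linarith)
    have h5 : Real.exp (1 - ((d : ℝ) + 3) * x) = Real.exp 1 * (1 / (n : ℝ) ^ (d + 3)) := by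
      rw [Real.exp_sub]
      have : Real.exp (((d : ℝ) + 3) * x) = (n : ℝ) ^ (d + 3) := by
        have e : ((d : ℝ) + 3) = ((d + 3 : ℕ) : ℝ) := by push_cast; ring
        rw [e, Real.exp_nat_mul, hx, Real.exp_log hn0]
      rw [this]; ring
    have h6 : Real.exp 1 * (1 / (n : ℝ) ^ (d + 3)) ≤ 3 * (1 / (n : ℝ) ^ (d + 3)) := by
      have := Real.exp_one_lt_d9
      gcongr
      linarith
    calc ρ ^ (K - 1) ≤ Real.exp (-1) ^ (K - 1) := h2
      _ = Real.exp (-((K : ℝ) - 1)) := h3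
      _ ≤ Real.exp (1 - ((d : ℝ) + 3) * x) := h4
      _ = _ := h5
      _ ≤ _ := h6
  have hS1 : 2 * K * ((n : ℝ) ^ (d + 1) * (2 * K * d) * ρ ^ (K - 1)) ≤ C1 * (x ^ 2 / n) := by
    have h1 : (K : ℝ) ^ 2 ≤ (2 * ((d : ℝ) + 3) * x) ^ 2 := pow_le_pow_left₀ hK0.le hKle 2
    have h2 : (1 : ℝ) / (n : ℝ) ^ 2 ≤ 1 / n := by
      apply one_div_le_one_div_of_le hn0
      nlinarith
    calc 2 * K * ((n : ℝ) ^ (d + 1) * (2 * K * d) * ρ ^ (K - 1))
        ≤ 2 * K * ((n : ℝ) ^ (d + 1) * (2 * K * d) * (3 * (1 / (n : ℝ) ^ (d + 3)))) := by gcongr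
      _ = 12 * d * (K : ℝ) ^ 2 * (1 / (n : ℝ) ^ 2) := by
          have : (n : ℝ) ^ (d + 3) = (n : ℝ) ^ (d + 1) * (n : ℝ) ^ 2 := by
            rw [← pow_add]
          rw [this]; field_simp; ring
      _ ≤ 12 * d * (2 * ((d : ℝ) + 3) * x) ^ 2 * (1 / n) := by gcongr
      _ = _ := by rw [hC1]; ring
  -- second term
  have hS2 : Real.exp (-(p * (m : ℝ) ^ (2 * d) / 10)) ≤ Real.exp (-(c / (10 * 4 ^ (2 * d)) * n)) := by
    apply Real.exp_le_exp.2
    apply neg_le_neg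
    have e1 : x ^ 2 ≤ n := by
      rw [div_lt_one hn0] at l4
      exact l4.le
    have e2 : (n : ℝ) * (n * x ^ 2) ≤ (n : ℝ) ^ (2 * d) := by
      calc (n : ℝ) * (n * x ^ 2) ≤ n * (n * n) := by gcongr
        _ = (n : ℝ) ^ 3 := by ring
        _ ≤ _ := pow_le_pow_right₀ hn1 (by omega)
    have e3 : c * n ≤ p * (n : ℝ) ^ (2 * d) := by
      have e4 : c * n = p * (n * (n * x ^ 2)) := by rw [hp]; field_simp
      rw [e4]
      exact mul_le_mul_of_nonneg_left e2 hp0.le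
    calc c / (10 * 4 ^ (2 * d)) * n = c * n / (10 * 4 ^ (2 * d)) := by ring
      _ ≤ p * (n : ℝ) ^ (2 * d) / (10 * 4 ^ (2 * d)) := by gcongr
      _ = p * ((n : ℝ) ^ (2 * d) / 4 ^ (2 * d)) / 10 := by ring
      _ ≤ _ := by gcongr
  -- third term
  have hS3 : (K * ((n : ℝ) ^ (d + 1) * (2 * K * d))) / (p * (m : ℝ) ^ (2 * d) / (2 * K ^ 2))
      ≤ C3 * (x ^ 6 / n) := by
    have h1 : (K : ℝ) ^ 4 ≤ (2 * ((d : ℝ) + 3) * x) ^ 4 := pow_le_pow_left₀ hK0.le hKle 4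
    have hq : p * ((n : ℝ) ^ (2 * d) / 4 ^ (2 * d)) / (2 * K ^ 2)
        ≤ p * (m : ℝ) ^ (2 * d) / (2 * K ^ 2) := by gcongr
    calc (K * ((n : ℝ) ^ (d + 1) * (2 * K * d))) / (p * (m : ℝ) ^ (2 * d) / (2 * K ^ 2))
        ≤ (K * ((n : ℝ) ^ (d + 1) * (2 * K * d))) /
          (p * ((n : ℝ) ^ (2 * d) / 4 ^ (2 * d)) / (2 * K ^ 2)) := by gcongr
      _ = 4 * d * (K : ℝ) ^ 4 * 4 ^ (2 * d) / c * (x ^ 2 * ((n : ℝ) ^ (d + 2) / (n : ℝ) ^ (2 * d))) := by
          rw [hp]; field_simp; ring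
      _ ≤ 4 * d * (2 * ((d : ℝ) + 3) * x) ^ 4 * 4 ^ (2 * d) / c * (x ^ 2 * (1 / n)) := by
          have h2 : (n : ℝ) ^ (d + 2) / (n : ℝ) ^ (2 * d) ≤ 1 / n := by
            rw [div_le_div_iff₀ (by positivity) hn0, one_mul, ← pow_succ]
            exact pow_le_pow_right₀ hn1 (by omega)
          gcongr
      _ = _ := by rw [hC3]; ring
  linarith

/-- the critical density of the polluted transitive closure on Hamming graphs -/
theorem pc_bounds' {d : ℕ} (hd : 3 ≤ d) :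
    ∀ᶠ n : ℕ in atTop, 1 / (300 * d * ((d : ℝ) + 3) ^ 2) / (n * Real.log n ^ 2) ≤ pc n d ∧
      pc n d ≤ (4 * d + 6) * Real.log n / n := by
  have L4 : ∀ᶠ n : ℕ in atTop, (4 * (d : ℝ) + 6) * Real.log n / n ≤ 1 := by
    have h1 : Tendsto (fun x : ℝ => Real.log x / x) atTop (𝓝 0) := by
      have := Real.isLittleO_log_id_atTop.tendsto_div_nhds_zero
      simpa using this
    have h2 := (h1.comp (tendsto_natCast_atTop_atTop (R := ℝ))).const_mul (4 * (d : ℝ) + 6)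
    rw [mul_zero] at h2
    filter_upwards [h2.eventually_lt_const one_pos] with n hn
    simp only [Function.comp] at hn
    rw [mul_div_assoc]
    exact hn.le
  filter_upwards [lower_sat' hd, pc_bounds hd one_pos, L4, eventually_ge_atTop (4 * d + 2)]
    with n h1 h2 h3 hn
  refine ⟨?_, h2.2⟩
  have hmem : (4 * (d : ℝ) + 6) * Real.log n / n ∈ {p : ℝ | 0 ≤ p ∧ p ≤ 1 ∧ ∀ p' : ℝ, p ≤ p' →
      p' ≤ 1 → 1 / 2 ≤ prob n d p' Saturated} := by
    refine ⟨?_, h3, fun p' hp' hp1 => upper (by omega) hn hp' hp1⟩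
    have := Real.log_natCast_nonneg n
    positivity
  unfold pc
  apply le_csInf ⟨_, hmem⟩
  rintro p ⟨_, _, hp⟩
  by_contra hcon
  push Not at hcon
  have h4 := hp _ hcon.le h1.1
  rw [prob_eq] at h4
  linarith [h1.2.2]

end Pool.Agent.Y873.HM
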