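import Pool.Agent.H500R3.Ham.Low
import Pool.Agent.H500R3.Ham.Up

/-!
A lower bound for the critical density of the polluted transitive closure up to powers of the
logarithm.
-/

set_option autoImplicit false

namespace Pool.Agent.Y873.HM

open Finset Classical Pool.Agent.Helper91.BP Filter Topology Pool.Agent.H500R3.Ham

variable {n d : ℕ}

theorem choose_bound {k M : ℕ} (hk : 3 ≤ k) (hM : M ≤ (k + 1) ^ 2) :
    ((M.choose (k - 1) : ℕ) : ℝ) ≤ (6 * ((k : ℝ) + 1)) ^ (k - 1) := by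
  obtain ⟨r, rfl⟩ : ∃ r, k = r + 1 := ⟨k - 1, by omega⟩
  have hr : r + 1 - 1 = r := by omega
  rw [hr]
  have hr2 : (2 : ℝ) ≤ r := by exact_mod_cast (by omega : 2 ≤ r)
  have hr0 : (0 : ℝ) < r := by linarith
  have h1 : ((M.choose r : ℕ) : ℝ) ≤ (M : ℝ) ^ r / (r.factorial : ℝ) := Nat.choose_le_pow_div r M
  have h2 : (r : ℝ) ^ r / (r.factorial : ℝ) ≤ Real.exp r := Real.pow_div_factorial_le_exp r hr0.le r
  have hf : (0 : ℝ) < (r.factorial : ℝ) := by exact_mod_cast Nat.factorial_pos r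
  have h3 : (M : ℝ) ^ r / (r.factorial : ℝ) = ((M : ℝ) / r) ^ r * ((r : ℝ) ^ r / (r.factorial : ℝ)) := by
    rw [div_pow]; field_simp
  have h4 : ((M : ℝ) / r) ^ r * ((r : ℝ) ^ r / (r.factorial : ℝ)) ≤ ((M : ℝ) / r) ^ r * Real.exp r := by
    gcongr
  have h5 : Real.exp (r : ℝ) = Real.exp 1 ^ r := by rw [← Real.exp_nat_mul, mul_one]
  have h6 : ((M : ℝ) / r) ^ r * Real.exp r = ((M : ℝ) / r * Real.exp 1) ^ r := by
    rw [h5, mul_pow]
  refine h1.trans ?_
  rw [h3]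
  refine h4.trans ?_
  rw [h6]
  apply pow_le_pow_left₀ (by positivity)
  have he := Real.exp_one_lt_d9
  have hMR : (M : ℝ) ≤ ((r : ℝ) + 2) ^ 2 := by
    have : (M : ℝ) ≤ (((r + 1 + 1) ^ 2 : ℕ) : ℝ) := by exact_mod_cast hM
    refine this.trans (le_of_eq ?_)
    push_cast; ring
  rw [div_mul_eq_mul_div, div_le_iff₀ hr0]
  push_cast
  have h7 : (M : ℝ) * Real.exp 1 ≤ ((r : ℝ) + 2) ^ 2 * 2.7183 := by
    apply mul_le_mul hMR (by linarith) (Real.exp_pos _).le (by positivity)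
  refine h7.trans ?_
  nlinarith

theorem many_open_prob' {p : ℝ} (h0 : 0 ≤ p) (h1 : p ≤ 1) (S : Finset (V n d)) {k : ℕ}
    (hk3 : 3 ≤ k) (hk : S.card = k + 1) :
    Pr p (fun O : Finset (NonEdge n d) => k - 1 ≤ (O ∩ ins S).card)
      ≤ (6 * ((k : ℝ) + 1) * p) ^ (k - 1) := by
  calc Pr p (fun O : Finset (NonEdge n d) => k - 1 ≤ (O ∩ ins S).card)
      ≤ Pr p (fun O => ∃ F ∈ (ins S).powersetCard (k - 1), F ⊆ O) := by
        apply Pr_mono h0 h1
        intro O hO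
        obtain ⟨F, hF, hFc⟩ := exists_subset_card_eq hO
        refine ⟨F, ?_, fun e he => (mem_inter.1 (hF he)).1⟩
        rw [mem_powersetCard]
        exact ⟨fun e he => (mem_inter.1 (hF he)).2, hFc⟩
    _ ≤ ∑ F ∈ (ins S).powersetCard (k - 1), Pr p (fun O => F ⊆ O) := Pr_bUnion_le h0 h1 _ _
    _ = ∑ F ∈ (ins S).powersetCard (k - 1), p ^ (k - 1) := by
        apply sum_congr rfl
        intro F hF
        rw [mem_powersetCard] at hF
        rw [Pr_sub, hF.2]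
    _ = (((ins S).powersetCard (k - 1)).card : ℝ) * p ^ (k - 1) := by rw [sum_const, nsmul_eq_mul]
    _ ≤ (6 * ((k : ℝ) + 1)) ^ (k - 1) * p ^ (k - 1) := by
        apply mul_le_mul_of_nonneg_right _ (pow_nonneg h0 _)
        rw [card_powersetCard]
        apply choose_bound hk3
        have := card_ins S
        rwa [hk] at this
    _ = _ := by rw [← mul_pow]

/-- the bound for one size -/
noncomputable def tm (n d : ℕ) (p : ℝ) (k : ℕ) : ℝ :=
  (n : ℝ) ^ d * (((k : ℝ) + 1) * (d * n)) ^ k * (6 * ((k : ℝ) + 1) * p) ^ (k - 1)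

theorem bk' {p : ℝ} (h0 : 0 ≤ p) (h1 : p ≤ 1) (k : ℕ) (hk3 : 3 ≤ k) :
    ∑ S ∈ Gk n d k, Pr p (fun O : Finset (NonEdge n d) => k - 1 ≤ (O ∩ ins S).card) ≤
      tm n d p k := by
  calc _ ≤ ∑ S ∈ Gk n d k, (6 * ((k : ℝ) + 1) * p) ^ (k - 1) := by
        apply sum_le_sum
        intro S hS
        unfold Gk at hS
        exact many_open_prob' h0 h1 S hk3 (mem_filter.1 hS).2
    _ = ((Gk n d k).card : ℝ) * (6 * ((k : ℝ) + 1) * p) ^ (k - 1) := by
        rw [sum_const, nsmul_eq_mul]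
    _ ≤ _ := by
        unfold tm
        apply mul_le_mul_of_nonneg_right _ (by positivity)
        have h2 : (Gk n d k).card ≤ n ^ d * ((k + 1) * (d * n)) ^ k :=
          le_trans (card_le_card (filter_subset _ _)) (card_G k)
        exact_mod_cast h2

theorem mid_prob' {p : ℝ} (h0 : 0 ≤ p) (h1 : p ≤ 1) (K : ℕ) (hK : 3 ≤ K) :
    Pr p (fun O : Finset (NonEdge n d) => ∃ k ∈ Icc K (2 * K - 1), ∃ S ∈ Gk n d k,
      k - 1 ≤ (O ∩ ins S).card) ≤ ∑ k ∈ Icc K (2 * K - 1), tm n d p k := by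
  refine le_trans (Pr_bUnion_le h0 h1 _ _) ?_
  apply sum_le_sum
  intro k hk
  have := (mem_Icc.1 hk).1
  exact le_trans (Pr_bUnion_le h0 h1 _ _) (bk' h0 h1 k (by omega))

theorem ns_prob' {p a : ℝ} (h0 : 0 ≤ p) (h1 : p ≤ 1) (K : ℕ) (ha : 0 < a) :
    Pr p (fun O : Finset (NonEdge n d) => a ≤ (Ns K O : ℝ)) ≤
      (∑ k ∈ Icc 3 (K - 1), tm n d p k) / a := by
  have h2 := Pr_le_sum h0 h1 (fun O : Finset (NonEdge n d) => a ≤ (Ns K O : ℝ))
    (fun O => (Ns K O : ℝ) / a) (fun O => by positivity) (fun O hO => by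
      rw [le_div_iff₀ ha]; linarith)
  refine le_trans h2 ?_
  have h3 : ∑ A : Finset (NonEdge n d), wt p A * ((Ns K A : ℝ) / a) =
      (∑ k ∈ Icc 3 (K - 1), ∑ S ∈ Gk n d k,
        Pr p (fun O : Finset (NonEdge n d) => k - 1 ≤ (O ∩ ins S).card)) / a := by
    have e1 : ∀ A : Finset (NonEdge n d), wt p A * ((Ns K A : ℝ) / a) =
        (∑ k ∈ Icc 3 (K - 1), ∑ S ∈ Gk n d k,
          if k - 1 ≤ (A ∩ ins S).card then wt p A else 0) / a := by
      intro A
      unfold Ns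
      rw [mul_div_assoc']
      congr 1
      push_cast
      rw [mul_sum]
      apply sum_congr rfl
      intro k _
      rw [card_filter]
      push_cast
      rw [mul_sum]
      apply sum_congr rfl
      intro S _
      split_ifs <;> simp
    simp_rw [e1]
    rw [← sum_div, sum_comm]
    congr 1
    apply sum_congr rfl
    intro k _
    rw [sum_comm]
    apply sum_congr rfl
    intro S _
    unfold Pr
    apply sum_congr rfl
    intro A _
    split_ifs <;> rfl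
  rw [h3]
  apply div_le_div_of_nonneg_right _ ha.le
  apply sum_le_sum
  intro k hk
  exact bk' h0 h1 k (mem_Icc.1 hk).1

theorem tm_le {p : ℝ} (hp : 0 ≤ p) {k K : ℕ} (hk3 : 3 ≤ k) (hk : k ≤ 2 * K - 1) :
    tm n d p k ≤ (n : ℝ) ^ (d + 1) * (2 * K * d) * (24 * d * (K : ℝ) ^ 2 * (n * p)) ^ (k - 1) := by
  have hK : 2 ≤ K := by omega
  have hkK : (k : ℝ) + 1 ≤ 2 * K := by
    have : k + 1 ≤ 2 * K := by omega
    exact_mod_cast this
  obtain ⟨j, rfl⟩ : ∃ j, k = j + 1 := ⟨k - 1, by omega⟩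
  have hj : j + 1 - 1 = j := by omega
  unfold tm
  rw [hj]
  set w : ℝ := ((j + 1 : ℕ) : ℝ) + 1 with hw
  have hw0 : 0 ≤ w := by rw [hw]; positivity
  have e1 : (n : ℝ) ^ d * (w * (d * n)) ^ (j + 1) * (6 * w * p) ^ j
      = (n : ℝ) ^ (d + 1) * (w * d) * (6 * d * w ^ 2 * (n * p)) ^ j := by
    have : (6 * d * w ^ 2 * (n * p)) ^ j = (w * (d * n)) ^ j * (6 * w * p) ^ j := by
      rw [← mul_pow]; congr 1; ring
    rw [this, pow_succ (w * (d * n)) j, pow_succ (n : ℝ) d]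
    ring
  rw [e1]
  have h2 : 6 * d * w ^ 2 * (n * p) ≤ 24 * d * (K : ℝ) ^ 2 * (n * p) := by
    have h3 : w ^ 2 ≤ (2 * (K : ℝ)) ^ 2 := pow_le_pow_left₀ hw0 hkK 2
    have h4 : 0 ≤ (n : ℝ) * p := by positivity
    have h5 : 6 * (d : ℝ) * w ^ 2 ≤ 6 * d * (2 * (K : ℝ)) ^ 2 := by gcongr
    have h6 : 6 * (d : ℝ) * (2 * (K : ℝ)) ^ 2 = 24 * d * (K : ℝ) ^ 2 := by ring
    rw [h6] at h5
    exact mul_le_mul_of_nonneg_right h5 h4
  have h7 : (6 * d * w ^ 2 * (n * p)) ^ j ≤ (24 * d * (K : ℝ) ^ 2 * (n * p)) ^ j :=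
    pow_le_pow_left₀ (by positivity) h2 j
  gcongr

/-- the bound for the probability of saturation -/
theorem sat_prob' {m : ℕ} (hm : 2 * m ≤ n) (hm1 : 1 ≤ m) (hd : 3 ≤ d) {K : ℕ} (hK : 3 ≤ K) {p ρ : ℝ}
    (h0 : 0 < p) (h1 : p ≤ 1) (hρ : ρ = 24 * d * (K : ℝ) ^ 2 * (n * p)) (hρ1 : ρ ≤ 1) :
    Pr p (fun O : Finset (NonEdge n d) => Saturated O) ≤
      2 * K * ((n : ℝ) ^ (d + 1) * (2 * K * d) * ρ ^ (K - 1)) +
      (Real.exp (-(p * (m : ℝ) ^ (2 * d) / 10)) +
        (K * ((n : ℝ) ^ (d + 1) * (2 * K * d))) / (p * (m : ℝ) ^ (2 * d) / (2 * K ^ 2))) := by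
  have hm0 : (0 : ℝ) < m := by exact_mod_cast hm1
  have hK0 : (0 : ℝ) < K := by exact_mod_cast (by omega : 0 < K)
  have hρ0 : 0 ≤ ρ := by rw [hρ]; positivity
  have hT : ((T0 hm (by omega : 2 ≤ d)).card : ℝ) = (m : ℝ) ^ (2 * d) := by
    rw [card_T0]; push_cast; ring
  have key : ∀ O : Finset (NonEdge n d), Saturated O →
      (∃ k ∈ Icc K (2 * K - 1), ∃ S ∈ Gk n d k, k - 1 ≤ (O ∩ ins S).card) ∨
      (((O ∩ T0 hm (by omega : 2 ≤ d)).card : ℝ) ≤ p * (T0 hm (by omega : 2 ≤ d)).card / 2 ∨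
        p * (m : ℝ) ^ (2 * d) / (2 * K ^ 2) ≤ (Ns K O : ℝ)) := by
    intro O hO
    rcases sat_cases hm hd (by omega : 2 ≤ K) O hO with h | h
    · exact Or.inl h
    · right
      by_cases h2 : ((O ∩ T0 hm (by omega : 2 ≤ d)).card : ℝ) ≤ p * (T0 hm (by omega : 2 ≤ d)).card / 2
      · exact Or.inl h2
      · right
        push Not at h2
        rw [hT] at h2
        have h3 : ((O ∩ T0 hm (by omega : 2 ≤ d)).card : ℝ) ≤ (K : ℝ) ^ 2 * (Ns K O : ℝ) := by
          exact_mod_cast h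
        rw [div_le_iff₀ (by positivity)]
        linarith
  refine le_trans (Pr_mono h0.le h1 key) (le_trans (Pr_or_le h0.le h1 _ _) ?_)
  apply add_le_add
  · refine (mid_prob' h0.le h1 K hK).trans ?_
    calc ∑ k ∈ Icc K (2 * K - 1), tm n d p k
        ≤ ∑ k ∈ Icc K (2 * K - 1), (n : ℝ) ^ (d + 1) * (2 * K * d) * ρ ^ (K - 1) := by
          apply sum_le_sum
          intro k hk
          rw [mem_Icc] at hk
          refine (tm_le h0.le (by omega) hk.2).trans ?_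
          rw [← hρ]
          have : ρ ^ (k - 1) ≤ ρ ^ (K - 1) := pow_le_pow_of_le_one hρ0 hρ1 (by omega)
          gcongr
      _ = ((Icc K (2 * K - 1)).card : ℝ) * ((n : ℝ) ^ (d + 1) * (2 * K * d) * ρ ^ (K - 1)) := by
          rw [sum_const, nsmul_eq_mul]
      _ ≤ _ := by
          apply mul_le_mul_of_nonneg_right _ (by positivity)
          rw [Nat.card_Icc]
          have : 2 * K - 1 + 1 - K ≤ 2 * K := by omega
          exact_mod_cast this
  · refine le_trans (Pr_or_le h0.le h1 _ _) ?_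
    apply add_le_add
    · have := few_open_prob h0.le h1 (T0 hm (by omega : 2 ≤ d))
      rwa [hT] at this ⊢
    · refine (ns_prob' h0.le h1 K (by positivity)).trans ?_
      apply div_le_div_of_nonneg_right _ (by positivity)
      calc ∑ k ∈ Icc 3 (K - 1), tm n d p k
          ≤ ∑ k ∈ Icc 3 (K - 1), (n : ℝ) ^ (d + 1) * (2 * K * d) := by
            apply sum_le_sum
            intro k hk
            rw [mem_Icc] at hk
            refine (tm_le (K := K) h0.le hk.1 (by omega)).trans ?_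
            rw [← hρ]
            have : ρ ^ (k - 1) ≤ 1 := pow_le_one₀ hρ0 hρ1
            calc (n : ℝ) ^ (d + 1) * (2 * K * d) * ρ ^ (k - 1)
                ≤ (n : ℝ) ^ (d + 1) * (2 * K * d) * 1 := by gcongr
              _ = _ := mul_one _
        _ = ((Icc 3 (K - 1)).card : ℝ) * ((n : ℝ) ^ (d + 1) * (2 * K * d)) := by
            rw [sum_const, nsmul_eq_mul]
        _ ≤ _ := by
            apply mul_le_mul_of_nonneg_right _ (by positivity)
            rw [Nat.card_Icc]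
            have : K - 1 + 1 - 3 ≤ K := by omega
            exact_mod_cast this

end Pool.Agent.Y873.HM
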